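import Mathlib

set_option autoImplicit false
open MeasureTheory ProbabilityTheory
open scoped ENNReal

namespace Pool.Agent.Results.MP_990fd9_pr.Speedup

/-- Law of the table of moves: for every time and vertex an independent uniform out-neighbour. -/
noncomputable def moveLaw {V : Type} [Fintype V] [MeasurableSpace V] (G : Digraph V) :
    Measure (ℕ → V → V) :=
  Measure.infinitePi fun _ : ℕ => Measure.pi fun w : V => uniformOn {z | G.Adj w z}

/-- The walk started at `u` that follows the table of moves `ω`. -/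
def walk {V : Type} (u : V) (ω : ℕ → V → V) : ℕ → V
  | 0 => u
  | t + 1 => ω t (walk u ω t)

/-- First time the walk from `u` is at `v`. -/
noncomputable def hit {V : Type} (u v : V) (ω : ℕ → V → V) : ℝ≥0∞ :=
  ⨅ (t : ℕ) (_ : walk u ω t = v), (t : ℝ≥0∞)

/-- Maximal expected hitting time of one walk. -/
noncomputable def hMax {V : Type} [Fintype V] [MeasurableSpace V] (G : Digraph V) : ℝ≥0∞ :=
  ⨆ (u : V) (v : V), ∫⁻ ω, hit u v ω ∂(moveLaw G)

/-- Maximal expected joint hitting time of `k` independent walks. -/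
noncomputable def hkMax {V : Type} [Fintype V] [MeasurableSpace V] (G : Digraph V) (k : ℕ) :
    ℝ≥0∞ :=
  ⨆ (u : Fin k → V) (v : V),
    ∫⁻ ω : Fin k → ℕ → V → V, ⨅ i, hit (u i) v (ω i) ∂(Measure.pi fun _ : Fin k => moveLaw G)

open Classical in
lemma iInf_eq_tsum (Q : ℕ → Prop) :
    ⨅ (t : ℕ) (_ : Q t), (t : ℝ≥0∞) = ∑' n : ℕ, if ∀ t ≤ n, ¬ Q t then 1 else 0 := by
  by_cases h : ∃ t, Q t
  · have h1 : ⨅ (t : ℕ) (_ : Q t), (t : ℝ≥0∞) = (Nat.find h : ℕ) := by
      apply le_antisymm
      · exact iInf₂_le (Nat.find h) (Nat.find_spec h)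
      · refine le_iInf₂ fun t ht => ?_
        exact_mod_cast Nat.find_min' h ht
    rw [h1, tsum_eq_sum (s := Finset.range (Nat.find h))]
    · rw [Finset.sum_congr rfl (g := fun _ => (1 : ℝ≥0∞))]
      · simp
      · intro n hn
        rw [if_pos]
        intro t ht
        exact Nat.find_min h (lt_of_le_of_lt ht (Finset.mem_range.1 hn))
    · intro n hn
      rw [if_neg]
      intro hh
      exact hh _ (by simpa using hn) (Nat.find_spec h)
  · push Not at h
    simp [h]

def cons {X : Type} (p : X × (ℕ → X)) : ℕ → X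
  | 0 => p.1
  | t + 1 => p.2 t

lemma measurable_cons {X : Type} [MeasurableSpace X] : Measurable (cons (X := X)) := by
  refine measurable_pi_lambda _ fun n => ?_
  cases n with
  | zero => exact measurable_fst
  | succ n => exact (measurable_pi_apply n).comp measurable_snd

lemma map_cons {X : Type} [MeasurableSpace X] (μ : Measure X) [IsProbabilityMeasure μ] :
    (μ.prod (Measure.infinitePi fun _ : ℕ => μ)).map cons = Measure.infinitePi fun _ : ℕ => μ := by
  classical
  refine Measure.eq_infinitePi _ fun s t ht => ?_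
  rw [Measure.map_apply measurable_cons (MeasurableSet.pi s.countable_toSet fun i _ => ht i)]
  have hinj : Set.InjOn Nat.succ (Nat.succ ⁻¹' (s : Set ℕ)) := Nat.succ_injective.injOn
  have : cons ⁻¹' (Set.pi (s : Set ℕ) t) =
      (if 0 ∈ s then t 0 else Set.univ) ×ˢ
        Set.pi ((s.preimage Nat.succ hinj : Finset ℕ) : Set ℕ) (fun i => t (i + 1)) := by
    ext ⟨y, ω⟩
    simp only [Set.mem_preimage, Set.mem_pi, Finset.mem_coe, Set.mem_prod, Finset.coe_preimage]
    constructor
    · intro h
      refine ⟨?_, fun i hi => h (i + 1) hi⟩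
      split_ifs with h0
      · exact h 0 h0
      · trivial
    · rintro ⟨h1, h2⟩ i hi
      cases i with
      | zero => rw [if_pos hi] at h1; exact h1
      | succ i => exact h2 i hi
  rw [this, Measure.prod_prod, Measure.infinitePi_pi _ (fun i _ => ht (i + 1))]
  have h2 : ∏ i ∈ s.preimage Nat.succ hinj, μ (t (i + 1)) = ∏ i ∈ s.erase 0, μ (t i) := by
    refine Finset.prod_bij (fun i _ => i + 1) ?_ ?_ ?_ ?_
    · intro a ha
      simpa using ha
    · intro a _ b _ h
      omega
    · intro b hb
      obtain ⟨h0, hb⟩ := Finset.mem_erase.1 hb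
      obtain ⟨c, rfl⟩ := Nat.exists_eq_succ_of_ne_zero h0
      exact ⟨c, by simpa using hb, rfl⟩
    · intro a _
      rfl
  rw [h2]
  split_ifs with h0
  · rw [Finset.mul_prod_erase s (fun i => μ (t i)) h0]
  · simp [Finset.erase_eq_of_notMem h0]

lemma walk_cons {V : Type} (u : V) (y : V → V) (ω : ℕ → V → V) (t : ℕ) :
    walk u (cons (y, ω)) (t + 1) = walk (y u) ω t := by
  induction t with
  | zero => rfl
  | succ t ih =>
    show ω t (walk u (cons (y, ω)) (t + 1)) = ω t (walk (y u) ω t)
    rw [ih]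

section
variable {V : Type} [Fintype V] [MeasurableSpace V] [DiscreteMeasurableSpace V]

lemma measurable_walk (u : V) (t : ℕ) : Measurable fun ω : ℕ → V → V => walk u ω t := by
  induction t with
  | zero => exact measurable_const
  | succ t ih =>
    have h : Measurable fun p : (V → V) × V => p.1 p.2 := Measurable.of_discrete
    exact h.comp ((measurable_pi_apply t).prodMk ih)

def av (u v : V) (n : ℕ) : Set (ℕ → V → V) := {ω | ∀ t ≤ n, ¬ walk u ω t = v}

lemma measurableSet_av (u v : V) (n : ℕ) : MeasurableSet (av u v n) := by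
  have : av u v n = ⋂ t, ⋂ (_ : t ≤ n), (fun ω : ℕ → V → V => walk u ω t) ⁻¹' {v}ᶜ := by
    ext ω
    simp [av]
  rw [this]
  exact MeasurableSet.iInter fun t => MeasurableSet.iInter fun _ =>
    measurable_walk u t MeasurableSet.of_discrete

open Classical in
lemma av_succ (μ : Measure (V → V)) [IsProbabilityMeasure μ] (u v : V) (huv : u ≠ v) (n : ℕ) :
    (Measure.infinitePi fun _ : ℕ => μ) (av u v (n + 1)) =
      ∑ y : V → V, μ {y} * (Measure.infinitePi fun _ : ℕ => μ) (av (y u) v n) := by
  classical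
  conv_lhs => rw [← map_cons μ]
  rw [Measure.map_apply measurable_cons (measurableSet_av u v _),
    Measure.prod_apply (measurable_cons (measurableSet_av u v _)), lintegral_fintype]
  refine Finset.sum_congr rfl fun y _ => ?_
  rw [mul_comm]
  congr 2
  ext ω
  simp only [av, Set.mem_preimage, Set.mem_ofPred_eq]
  constructor
  · intro h t ht
    rw [← walk_cons]
    exact h _ (by omega)
  · intro h t ht
    cases t with
    | zero => exact huv
    | succ t =>
      rw [walk_cons]
      exact h t (by omega)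

omit [Fintype V] [MeasurableSpace V] [DiscreteMeasurableSpace V] in
lemma av_self (v : V) (n : ℕ) : av v v n = ∅ := by
  ext ω
  simp only [av, Set.mem_ofPred_eq, Set.mem_empty_iff_false, iff_false]
  intro h
  exact h 0 (Nat.zero_le _) rfl

omit [Fintype V] [MeasurableSpace V] [DiscreteMeasurableSpace V] in
lemma av_zero (u v : V) (huv : u ≠ v) : av u v 0 = Set.univ := by
  ext ω
  simp only [av, Set.mem_ofPred_eq, Set.mem_univ, iff_true]
  intro t ht
  obtain rfl : t = 0 := by omega
  exact huv

lemma shift_le (μ : Measure (V → V)) [IsProbabilityMeasure μ] (v : V) (N : ℕ) (M : ℝ≥0∞)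
    (hM : ∀ w, ∑ m ∈ Finset.range N, (Measure.infinitePi fun _ : ℕ => μ) (av w v m) ≤ M)
    (n : ℕ) : ∀ u, ∑ m ∈ Finset.range N, (Measure.infinitePi fun _ : ℕ => μ) (av u v (m + n)) ≤
      (Measure.infinitePi fun _ : ℕ => μ) (av u v n) * M := by
  classical
  induction n with
  | zero =>
    intro u
    by_cases huv : u = v
    · subst huv
      simp [av_self]
    · rw [av_zero u v huv]
      simpa using hM u
  | succ n ih =>
    intro u
    by_cases huv : u = v
    · subst huv
      simp [av_self]
    · simp only [← add_assoc, av_succ μ u v huv]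
      rw [Finset.sum_comm, Finset.sum_mul]
      refine Finset.sum_le_sum fun y _ => ?_
      rw [← Finset.mul_sum, mul_assoc]
      gcongr
      exact ih _

end

lemma key (a : ℕ → ℝ) (ha : ∀ n, 0 ≤ a n) (N k : ℕ) (hk : 1 ≤ k)
    (h : ∀ n, ∑ m ∈ Finset.range N, a (m + n) ≤ a n * ∑ m ∈ Finset.range N, a m) :
    ∑ m ∈ Finset.range N, a m ≤ k * ∑ m ∈ Finset.range N, a m ^ k := by
  set M := ∑ m ∈ Finset.range N, a m with hM
  have hM0 : 0 ≤ M := Finset.sum_nonneg fun i _ => ha i
  let g : ℕ → ℝ := fun n => ∑ m ∈ Finset.range (N - n), a (m + n)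
  have hg0 : ∀ n, 0 ≤ g n := fun n => Finset.sum_nonneg fun i _ => ha _
  have hgs : ∀ n < N, g n = g (n + 1) + a n := by
    intro n hn
    have : N - n = (N - (n + 1)) + 1 := by omega
    simp only [g]
    rw [this, Finset.sum_range_succ']
    congr 1
    · exact Finset.sum_congr rfl fun i _ => by congr 1; omega
    · simp
  have hgle : ∀ n, g n ≤ a n * M := by
    intro n
    refine le_trans ?_ (h n)
    exact Finset.sum_le_sum_of_subset_of_nonneg (Finset.range_mono (by omega)) fun i _ _ => ha _
  have hstep : ∀ n < N, g n ^ k - g (n + 1) ^ k ≤ k * a n ^ k * M ^ (k - 1) := by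
    intro n hn
    have h1 := abs_pow_sub_pow_le (g n) (g (n + 1)) k
    have h2 : g (n + 1) ≤ g n := by rw [hgs n hn]; linarith [ha n]
    have h3 : g n - g (n + 1) = a n := by rw [hgs n hn]; ring
    rw [h3, abs_of_nonneg (ha n), abs_of_nonneg (hg0 n), abs_of_nonneg (hg0 _),
      max_eq_left h2] at h1
    have h4 : g n ^ (k - 1) ≤ (a n * M) ^ (k - 1) := pow_le_pow_left₀ (hg0 n) (hgle n) _
    calc g n ^ k - g (n + 1) ^ k ≤ a n * k * g n ^ (k - 1) := le_trans (le_abs_self _) h1
      _ ≤ a n * k * (a n * M) ^ (k - 1) := by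
          have := ha n
          gcongr
      _ = k * a n ^ k * M ^ (k - 1) := by
          obtain ⟨j, rfl⟩ : ∃ j, k = j + 1 := ⟨k - 1, by omega⟩
          simp only [Nat.add_sub_cancel]
          ring
  have hsum : M ^ k ≤ (k * ∑ m ∈ Finset.range N, a m ^ k) * M ^ (k - 1) := by
    have h1 := Finset.sum_range_sub' (fun n => g n ^ k) N
    have h2 : g 0 = M := by simp [g, hM]
    have h3 : g N = 0 := by simp [g]
    simp only [h2, h3] at h1
    rw [zero_pow (by omega), sub_zero] at h1
    rw [← h1, Finset.mul_sum, Finset.sum_mul]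
    exact Finset.sum_le_sum fun n hn => hstep n (Finset.mem_range.1 hn)
  rcases hM0.eq_or_lt with h0 | h0
  · rw [← h0]
    exact mul_nonneg (Nat.cast_nonneg _) (Finset.sum_nonneg fun i _ => pow_nonneg (ha i) _)
  · have h1 : M ^ k = M * M ^ (k - 1) := by
      obtain ⟨j, rfl⟩ : ∃ j, k = j + 1 := ⟨k - 1, by omega⟩
      simp only [Nat.add_sub_cancel]
      ring
    rw [h1] at hsum
    exact le_of_mul_le_mul_right hsum (pow_pos h0 _)

lemma key' (a : ℕ → ℝ≥0∞) (ha : ∀ n, a n ≠ ⊤) (N k : ℕ) (hk : 1 ≤ k)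
    (h : ∀ n, ∑ m ∈ Finset.range N, a (m + n) ≤ a n * ∑ m ∈ Finset.range N, a m) :
    ∑ m ∈ Finset.range N, a m ≤ k * ∑ m ∈ Finset.range N, a m ^ k := by
  lift a to ℕ → NNReal using ha
  beta_reduce at h ⊢
  have := key (fun n => (a n : ℝ)) (fun n => (a n).2) N k hk (fun n => by exact_mod_cast h n)
  exact_mod_cast this

section
variable {V : Type} [Fintype V] [MeasurableSpace V] [DiscreteMeasurableSpace V]

lemma lintegral_hit (P : Measure (ℕ → V → V)) (u v : V) :
    ∫⁻ ω, hit u v ω ∂P = ∑' n, P (av u v n) := by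
  classical
  have : ∀ ω, hit u v ω = ∑' n, (av u v n).indicator 1 ω := by
    intro ω
    rw [hit, iInf_eq_tsum]
    refine tsum_congr fun n => ?_
    by_cases hh : ω ∈ av u v n
    · rw [Set.indicator_of_mem hh, Pi.one_apply]
      exact if_pos hh
    · rw [Set.indicator_of_notMem hh]
      exact if_neg hh
  simp only [this]
  rw [lintegral_tsum fun n => (measurable_one.indicator (measurableSet_av u v n)).aemeasurable]
  exact tsum_congr fun n => lintegral_indicator_one (measurableSet_av u v n)

lemma lintegral_hit_k (P : Measure (ℕ → V → V)) [IsProbabilityMeasure P] (k : ℕ) (u v : V) :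
    ∫⁻ ω : Fin k → ℕ → V → V, ⨅ i, hit u v (ω i) ∂(Measure.pi fun _ : Fin k => P) =
      ∑' n, P (av u v n) ^ k := by
  classical
  have hm : ∀ n, MeasurableSet (Set.univ.pi fun _ : Fin k => av u v n) := fun n =>
    MeasurableSet.univ_pi fun _ => measurableSet_av u v n
  have : ∀ ω : Fin k → ℕ → V → V, ⨅ i, hit u v (ω i) =
      ∑' n, (Set.univ.pi fun _ : Fin k => av u v n).indicator 1 ω := by
    intro ω
    have h1 : ⨅ i, hit u v (ω i) = ⨅ (t : ℕ) (_ : ∃ i, walk u (ω i) t = v), (t : ℝ≥0∞) := by
      simp only [hit, iInf_exists]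
      rw [iInf_comm]
    rw [h1, iInf_eq_tsum]
    refine tsum_congr fun n => ?_
    have h2 : (∀ t ≤ n, ¬∃ i, walk u (ω i) t = v) ↔ ω ∈ Set.univ.pi fun _ : Fin k => av u v n := by
      simp only [av, Set.mem_pi, Set.mem_univ, true_imp_iff, Set.mem_ofPred_eq, not_exists]
      exact ⟨fun h i t ht => h t ht i, fun h t ht i => h i t ht⟩
    by_cases hh : ω ∈ Set.univ.pi fun _ : Fin k => av u v n
    · rw [Set.indicator_of_mem hh, if_pos (h2.2 hh), Pi.one_apply]
    · rw [Set.indicator_of_notMem hh, if_neg (fun h => hh (h2.1 h))]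
  simp only [this]
  rw [lintegral_tsum fun n => (measurable_one.indicator (hm n)).aemeasurable]
  refine tsum_congr fun n => ?_
  rw [lintegral_indicator_one (hm n), Measure.pi_pi]
  simp

end

theorem result (V : Type) [Fintype V] [MeasurableSpace V] [DiscreteMeasurableSpace V]
    (G : Digraph V) (hG : ∀ u v, Relation.ReflTransGen G.Adj u v) (k : ℕ) (hk : 1 ≤ k) :
    hMax G ≤ k * hkMax G k := by
  classical
  refine iSup₂_le fun u v => ?_
  by_cases huv : u = v
  · subst huv
    simp [lintegral_hit, av_self]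
  have hout : ∀ w, ∃ z, G.Adj w z := by
    intro w
    by_cases hw : w = v
    · subst hw
      rcases (hG w u).cases_head with h | ⟨z, hz, _⟩
      · exact absurd h.symm huv
      · exact ⟨z, hz⟩
    · rcases (hG w v).cases_head with h | ⟨z, hz, _⟩
      · exact absurd h hw
      · exact ⟨z, hz⟩
  have : ∀ w : V, IsProbabilityMeasure (uniformOn {z | G.Adj w z}) := fun w =>
    isProbabilityMeasure_uniformOn (Set.toFinite _) (hout w)
  set μ : Measure (V → V) := Measure.pi fun w : V => uniformOn {z | G.Adj w z} with hμ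
  have hP : moveLaw G = Measure.infinitePi fun _ : ℕ => μ := rfl
  have : IsProbabilityMeasure (moveLaw G) := by rw [hP]; infer_instance
  rw [lintegral_hit, ENNReal.tsum_eq_iSup_nat]
  refine iSup_le fun N => ?_
  have : Nonempty V := ⟨u⟩
  obtain ⟨w, hw⟩ := Finite.exists_max fun w : V => ∑ m ∈ Finset.range N, moveLaw G (av w v m)
  refine (hw u).trans ?_
  refine (key' (fun m => moveLaw G (av w v m)) (fun n => measure_ne_top _ _) N k hk
    (fun n => shift_le μ v N _ hw n w)).trans ?_
  gcongr
  refine le_trans ?_ (le_iSup₂ (f := fun (u : Fin k → V) (v : V) =>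
    ∫⁻ ω : Fin k → ℕ → V → V, ⨅ i, hit (u i) v (ω i) ∂(Measure.pi fun _ : Fin k => moveLaw G))
    (fun _ => w) v)
  rw [lintegral_hit_k]
  exact ENNReal.sum_le_tsum _

end Pool.Agent.Results.MP_990fd9_pr.Speedup
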